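import Pool.Agent.Helper7.RO.Stmts

set_option autoImplicit false

namespace Pool.Agent.Helper49.RO

/-- the contradiction in a right-ordered group -/
theorem st_CON : Pool.Agent.Helper7.RO.ST_CON := by
  intro G _ R a c x y hR hax hay hac hx hy hxy hY hm
  obtain ⟨hmul, h1, hinv⟩ := hR
  have pow_mem : ∀ p ∈ R, ∀ n : ℕ, p ^ (n + 1) ∈ R := by
    intro p hp n
    induction n with
    | zero => simpa using hp
    | succ n ih => rw [pow_succ]; exact hmul _ ih _ hp
  have notboth : ∀ p ∈ R, p⁻¹ ∉ R := by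
    intro p hp hp'
    apply h1
    have := hmul _ hp _ hp'
    rwa [mul_inv_cancel] at this
  have root : ∀ (p : G) (n : ℕ), p ^ (n + 1) ∈ R → p ∈ R := by
    intro p n hp
    by_contra hcon
    have hp1 : p ≠ 1 := by
      rintro rfl
      rw [one_pow] at hp
      exact h1 hp
    have h2 : p⁻¹ ∈ R := by
      by_contra h3
      exact hcon ((hinv p hp1).2 h3)
    have h4 := pow_mem _ h2 n
    rw [inv_pow] at h4
    exact notboth _ hp h4
  have cax : Commute a x := hax
  have cay : Commute a y := hay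
  have cac : Commute a c := hac
  have ccx : Commute c x := by rw [← hx]; exact (Commute.refl x).pow_left 4
  have ccy : Commute c y := by rw [← hy]; exact (Commute.refl y).pow_left 3
  obtain ⟨Y, hYd⟩ : ∃ Y : G, Y = a ^ 60 * c := ⟨_, rfl⟩
  rw [← hYd] at hY hm
  have cYa : Commute Y a := by
    rw [hYd]; exact ((Commute.refl a).pow_left 60).mul_left cac.symm
  have cYx : Commute Y x := by rw [hYd]; exact (cax.pow_left 60).mul_left ccx
  have cYy : Commute Y y := by rw [hYd]; exact (cay.pow_left 60).mul_left ccy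
  obtain ⟨u, hu⟩ : ∃ u : G, u = x * a ^ 15 := ⟨_, rfl⟩
  obtain ⟨v, hv⟩ : ∃ v : G, v = y * a ^ 20 := ⟨_, rfl⟩
  obtain ⟨w, hw⟩ : ∃ w : G, w = x * y * a ^ 36 := ⟨_, rfl⟩
  have cYv : Commute Y v := by rw [hv]; exact cYy.mul_right (cYa.pow_right 20)
  have hu4 : u ^ 4 = Y := by
    rw [hu, (cax.symm.pow_right 15).mul_pow, hx, ← pow_mul, hYd]
    exact (cac.pow_left 60).eq.symm
  have hv3 : v ^ 3 = Y := by
    rw [hv, (cay.symm.pow_right 20).mul_pow, hy, ← pow_mul, hYd]
    exact (cac.pow_left 60).eq.symm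
  have hw5 : w ^ 5 = Y ^ 3 := by
    have e1 : Commute (x * y) (a ^ 36) := (cax.symm.mul_left cay.symm).pow_right 36
    have e2 : Commute (a ^ 60) c := cac.pow_left 60
    rw [hw, e1.mul_pow, hxy, ← pow_mul, hYd, e2.mul_pow, ← pow_mul]
    exact ((cac.pow_left 180).pow_right 3).eq.symm
  have uR : u ∈ R := root u 3 (by rw [hu4]; exact hY)
  have vR : v ∈ R := root v 2 (by rw [hv3]; exact hY)
  have wR : w ∈ R := root w 4 (by rw [hw5]; exact pow_mem _ hY 2)
  have huv : u * v * a = w := by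
    rw [hu, hv, hw]
    have e1 : x * a ^ 15 * (y * a ^ 20) * a = x * (a ^ 15 * y) * (a ^ 20 * a) := by
      simp only [mul_assoc]
    rw [e1, (cay.pow_left 15).eq]
    have e2 : x * (y * a ^ 15) * (a ^ 20 * a) = x * y * (a ^ 15 * (a ^ 20 * a)) := by
      simp only [mul_assoc]
    rw [e2, ← pow_succ, ← pow_add]
  have key : v ^ 2 * u ^ 3 * w = Y * Y * a := by
    calc v ^ 2 * u ^ 3 * w = v ^ 2 * u ^ 3 * (u * v * a) := by rw [huv]
      _ = v ^ 2 * (u ^ 3 * u) * v * a := by simp only [mul_assoc]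
      _ = v ^ 2 * Y * v * a := by rw [← pow_succ, hu4]
      _ = Y * v ^ 2 * v * a := by rw [(cYv.pow_right 2).eq]
      _ = Y * (v ^ 2 * v) * a := by simp only [mul_assoc]
      _ = Y * Y * a := by rw [← pow_succ, hv3]
  have hYYa : Y * Y * a ∈ R := by
    rw [← key]
    exact hmul _ (hmul _ (pow_mem _ vR 1) _ (pow_mem _ uR 2)) _ wR
  have h60 : (Y * Y * a) ^ 60 = (c * (Y ^ 121)⁻¹)⁻¹ := by
    have e1 : Commute (Y * Y) a := cYa.mul_left cYa
    have e2 : Y ^ 121 = Y ^ 120 * Y := pow_succ _ _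
    rw [e1.mul_pow, mul_inv_rev, inv_inv, e2]
    have e3 : (Y * Y) ^ 60 = Y ^ 120 := by rw [← pow_two, ← pow_mul]
    rw [e3, mul_assoc]
    congr 1
    rw [hYd, mul_inv_cancel_right]
  have h5 := pow_mem _ hYYa 59
  rw [h60] at h5
  exact notboth _ (hm 121) h5

end Pool.Agent.Helper49.RO
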