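import Pool.Agent.Helper7.RO.Stmts

set_option autoImplicit false

namespace Pool.Agent.Helper49.RO

open Pool.Agent.Helper7.RO

/-- the centralizer of `c` in the group of the homeomorphisms of the line -/
theorem st_RT (h1 : ST_RO) (h2 : ST_XY) : ST_RT := by
  obtain ⟨P, hP, hpos⟩ := h1
  obtain ⟨x, y, c, hc, hx, hy, hxy⟩ := h2
  obtain ⟨hm, h0, hi⟩ := hP
  have cx : c * x = x * c := by rw [← hx]; exact ((Commute.refl x).pow_left 4).eq
  have cy : c * y = y * c := by rw [← hy]; exact ((Commute.refl y).pow_left 3).eq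
  refine ⟨Subgroup.centralizer ({c} : Set (ℝ ≃o ℝ)), inferInstance,
    ⟨c, Subgroup.mem_centralizer_iff.2 (by intro h hh; rw [Set.mem_singleton_iff.1 hh])⟩,
    ⟨x, Subgroup.mem_centralizer_iff.2 (by intro h hh; rw [Set.mem_singleton_iff.1 hh]; exact cx)⟩,
    ⟨y, Subgroup.mem_centralizer_iff.2 (by intro h hh; rw [Set.mem_singleton_iff.1 hh]; exact cy)⟩,
    {g | (g : ℝ ≃o ℝ) ∈ P}, ⟨?_, ?_, ?_⟩, ?_, ?_, ?_, ?_, ?_⟩
  · intro a ha b hb
    exact hm _ ha _ hb
  · exact h0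
  · intro a ha
    have ha' : (a : ℝ ≃o ℝ) ≠ 1 := fun h => ha (Subtype.ext h)
    exact hi _ ha'
  · exact hpos c (fun z => by rw [hc]; linarith)
  · intro g
    exact Subtype.ext (Subgroup.mem_centralizer_iff.1 g.2 c rfl).symm
  · exact Subtype.ext hx
  · exact Subtype.ext hy
  · exact Subtype.ext hxy

end Pool.Agent.Helper49.RO
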